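import Pool.Agent.H72.Sh.S3

/-!
# Shadowing
-/

set_option autoImplicit false

open Filter Topology Set Metric Pool.Agent.TH289.C Pool.Agent.H72.Dj

namespace Pool.Agent.H72.Sh

variable {G : Type} [Group G] {X : Type} [MetricSpace X] [CompactSpace X] {α : G →* (X ≃ₜ X)}

/-- Shadowing of approximate orbits. -/
theorem shadow [Infinite X] (hα : IsConvergenceAction α) (hperf : ∀ x : X, (𝓝[≠] x).NeBot)
    (hco : CocompactOnTriples α) (T : Finset G) (hT : Subgroup.closure (T : Set G) = ⊤) :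
    ∃ r > 0, ∀ δ > 0, ∃ ε > 0, ∃ P : Finset G, ∀ Y : G → X,
      (∀ s ∈ P, ∀ g, dist (α s (Y g)) (Y (s * g)) ≤ ε) →
      ∃ x, (∀ g, dist (α g x) (Y g) < δ) ∧
        ∀ x', (∀ g, dist (α g x') (Y g) ≤ 2 * r) → x' = x := by
  classical
  obtain ⟨ε₀, hε₀, hco⟩ := hco
  obtain ⟨e, r₀, hr₀, he₀⟩ := exists_wide (X := X)
  obtain ⟨r, hr, hr1, hrε⟩ : ∃ r : ℝ, 0 < r ∧ r ≤ r₀ ∧ 6 * r < ε₀ :=
    ⟨min r₀ (ε₀ / 7), lt_min hr₀ (by positivity), min_le_left _ _, by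
      have := min_le_right r₀ (ε₀ / 7)
      linarith⟩
  have he : Wide r e := fun i j hij => by
    have := he₀ i j hij
    linarith
  refine ⟨r, hr, fun δ hδ => ?_⟩
  obtain ⟨d₁, hd₁, hT1⟩ := exists_mod α (T.image fun g => g⁻¹) hr
  obtain ⟨η, hη0, hη, hηd⟩ : ∃ η : ℝ, 0 < η ∧ η ≤ r ∧ 2 * η ≤ d₁ :=
    ⟨min r (d₁ / 2), lt_min hr (by positivity), min_le_left _ _, by
      have := min_le_right r (d₁ / 2)
      linarith⟩
  obtain ⟨S, hS⟩ := exists_ex hα hperf hε₀ hco hr hrε hη0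
  obtain ⟨κ₀, hκ₀, hT4⟩ := exists_low α T (half_pos hr)
  obtain ⟨ρ₁, hρ₁, hρ2, hρ3⟩ : ∃ ρ₁ : ℝ, 0 < ρ₁ ∧ ρ₁ ≤ κ₀ ∧ ρ₁ ≤ r / 2 :=
    ⟨min κ₀ (r / 2), lt_min hκ₀ (by positivity), min_le_left _ _, min_le_right _ _⟩
  obtain ⟨κ₁, hκ₁, hSl⟩ := exists_low α S hρ₁
  obtain ⟨κ, hκ, hκa, hκb, hκc⟩ : ∃ κ : ℝ, 0 < κ ∧ κ ≤ η / 2 ∧ κ ≤ r ∧ κ ≤ κ₁ :=
    ⟨min (η / 2) (min r κ₁), lt_min (by positivity) (lt_min hr hκ₁), min_le_left _ _,
      (min_le_right _ _).trans (min_le_left _ _), (min_le_right _ _).trans (min_le_right _ _)⟩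
  have hVf := finite_meet hα hκ hκ
  set V := hVf.toFinset with hVdef
  obtain ⟨d₂, hd₂, hm2⟩ := exists_mod α (T ∪ (T.image fun g => g⁻¹) ∪ V) (half_pos hη0)
  obtain ⟨η₁, hη₁0, hη₁a, hη₁b, hη₁c⟩ : ∃ η₁ : ℝ, 0 < η₁ ∧ η₁ ≤ η / 2 ∧ η₁ ≤ δ ∧ 2 * η₁ ≤ d₂ :=
    ⟨min (min (η / 2) δ) (d₂ / 2), lt_min (lt_min (by positivity) hδ) (by positivity),
      (min_le_left _ _).trans (min_le_left _ _), (min_le_left _ _).trans (min_le_right _ _), by
      have := min_le_right (min (η / 2) δ) (d₂ / 2)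
      linarith⟩
  obtain ⟨m, hm⟩ := contract (α := α) hα hr hη he hη₁0
  have hUf := fin_pr (S.finite_toSet) m
  set U := hUf.toFinset with hUdef
  refine ⟨min η₁ r, lt_min hη₁0 hr, S ∪ U ∪ T ∪ V, fun Y hY => ?_⟩
  have hYS : ∀ s ∈ S, ∀ g, dist (α s (Y g)) (Y (s * g)) ≤ r := fun s hs g =>
    (hY s (by simp [hs]) g).trans (min_le_right _ _)
  have hYU : ∀ s ∈ U, ∀ g, dist (α s (Y g)) (Y (s * g)) ≤ 2 * r := fun s hs g => by
    have := (hY s (by simp [hs]) g).trans (min_le_right _ _)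
    linarith
  have hYT : ∀ s ∈ T, ∀ g, dist (α s (Y g)) (Y (s * g)) ≤ η₁ := fun s hs g =>
    (hY s (by simp [hs]) g).trans (min_le_left _ _)
  have hYV : ∀ s ∈ V, ∀ g, dist (α s (Y g)) (Y (s * g)) ≤ η₁ := fun s hs g =>
    (hY s (by simp [hs]) g).trans (min_le_left _ _)
  have key : ∀ g₀, ∃ (b : ℕ → X) (s : ℕ → G) (x : X), (∀ k, s k ∈ (S : Set G)) ∧
      Ch α r η (fun k => Y (pr s k * g₀)) b s ∧
      (∀ k, dist (α (pr s k) x) (Y (pr s k * g₀)) ≤ 2 * r) ∧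
      ∀ k, dist (α (pr s k) x) (Y (pr s k * g₀)) < η₁ := by
    intro g₀
    obtain ⟨b, s, hs, h⟩ := exists_chain (S := (S : Set G)) hS hYS g₀
    obtain ⟨x, hx⟩ := h.exists hr hη
    refine ⟨b, s, x, hs, h, hx, fun k => ?_⟩
    exact acc (S := (S : Set G)) (U := (U : Set G)) h hs hx hm
      (fun s hs => by
        rw [hUdef, Finite.coe_toFinset]
        exact ⟨s, hs, rfl⟩) (fun u hu => hYU u hu) k
  choose b s x hs hch hx2 hx1 using key
  have hcons : ∀ t ∈ T, ∀ g, x (t * g) = α t (x g) := by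
    intro t ht g
    refine consist (α := α) (S := (S : Set G)) (V := (V : Set G)) (ε := η₁) (ρ₁ := ρ₁) (κ₁ := κ₁)
      (κ := κ) hα hr hη0 hη he (hs g) (hs (t * g)) (hch g) (hch (t * g)) (hx1 g) (hx1 (t * g))
      ?_ ?_ ?_ ?_ hρ3 (fun s hs => hSl s hs) hκa hκb hκc ?_ ?_ (fun v hv => hYV v hv)
      (hYT t ht g) le_rfl hη₁0 hη₁a
    · exact fun p q hpq => hT1 _ (Finset.mem_image_of_mem _ ht) p q (hpq.trans hηd)
    · exact fun p q hpq => hm2 _ (by simp [ht]) p q (hpq.trans hη₁c)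
    · exact fun p q hpq => hm2 _ (by simp [ht]) p q (hpq.trans hη₁c)
    · exact fun p q hpq => hρ2.trans (hT4 t ht p q hpq)
    · intro v hv
      rw [hVdef, Finite.coe_toFinset]
      exact hv
    · exact fun v hv p q hpq => hm2 _ (by
        have : v ∈ V := hv
        simp [this]) p q (hpq.trans hη₁c)
  have hall : ∀ g, ∀ h, x (g * h) = α g (x h) := by
    intro g
    have hg : g ∈ Subgroup.closure (T : Set G) := by rw [hT]; trivial
    refine Subgroup.closure_induction (p := fun g _ => ∀ h, x (g * h) = α g (x h)) ?_ ?_ ?_ ?_ hg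
    · exact fun t ht h => hcons t ht h
    · intro h
      rw [one_mul, map_one]
      rfl
    · intro p q _ _ hp hq h
      rw [mul_assoc, hp, hq, map_mul_apply]
    · intro p _ hp h
      have h1 := hp (p⁻¹ * h)
      rw [mul_inv_cancel_left] at h1
      rw [h1, map_inv_apply]
  refine ⟨x 1, fun g => ?_, fun x' hx' => ?_⟩
  · have h1 := hx1 g 0
    rw [pr_zero, one_mul] at h1
    have h2 := hall g 1
    rw [mul_one] at h2
    rw [← h2]
    have h3 : α 1 (x g) = x g := by rw [map_one]; rfl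
    rw [h3] at h1
    exact h1.trans_le hη₁b
  · refine (hch 1).unique hα hr hη he (fun k => ?_) (fun k => ?_)
    · simp only [mul_one]
      exact hx' _
    · exact hx2 1 k

/-- Approximate equivariance on generators gives approximate equivariance on any finite set. -/
theorem gen_one (α : G →* (X ≃ₜ X)) (T : Finset G) (hT : Subgroup.closure (T : Set G) = ⊤)
    (p : G) : ∀ ε > 0, ∃ ε' > 0, ∀ Y : G → X,
      (∀ s ∈ T, ∀ g, dist (α s (Y g)) (Y (s * g)) ≤ ε') →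
      ∀ g, dist (α p (Y g)) (Y (p * g)) ≤ ε := by
  classical
  have hg : p ∈ Subgroup.closure (T : Set G) := by rw [hT]; trivial
  refine Subgroup.closure_induction (p := fun p _ => ∀ ε > 0, ∃ ε' > 0, ∀ Y : G → X,
      (∀ s ∈ T, ∀ g, dist (α s (Y g)) (Y (s * g)) ≤ ε') →
      ∀ g, dist (α p (Y g)) (Y (p * g)) ≤ ε) ?_ ?_ ?_ ?_ hg
  · intro t ht ε hε
    exact ⟨ε, hε, fun Y hY g => hY t ht g⟩
  · intro ε hε
    refine ⟨ε, hε, fun Y _ g => ?_⟩
    rw [one_mul, map_one]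
    change dist (Y g) (Y g) ≤ ε
    rw [dist_self]
    exact le_of_lt hε
  · intro p q _ _ hp hq ε hε
    obtain ⟨d, hd, hm⟩ := exists_mod α {p} (half_pos hε)
    obtain ⟨ε₁, hε₁, h1⟩ := hp (ε / 2) (half_pos hε)
    obtain ⟨ε₂, hε₂, h2⟩ := hq d hd
    refine ⟨min ε₁ ε₂, lt_min hε₁ hε₂, fun Y hY g => ?_⟩
    have h3 := h1 Y (fun s hs g => (hY s hs g).trans (min_le_left _ _)) (q * g)
    have h4 := hm p (by simp) _ _ (h2 Y (fun s hs g => (hY s hs g).trans (min_le_right _ _)) g)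
    rw [mul_assoc, map_mul_apply]
    have h5 := dist_triangle (α p (α q (Y g))) (α p (Y (q * g))) (Y (p * (q * g)))
    linarith
  · intro p _ hp ε hε
    obtain ⟨d, hd, hm⟩ := exists_mod α {p⁻¹} hε
    obtain ⟨ε₁, hε₁, h1⟩ := hp d hd
    refine ⟨ε₁, hε₁, fun Y hY g => ?_⟩
    have h2 := h1 Y hY (p⁻¹ * g)
    rw [mul_inv_cancel_left] at h2
    have h3 := hm p⁻¹ (by simp) _ _ h2
    rw [map_inv_apply] at h3
    rw [dist_comm]
    exact h3.le

theorem gen_all (α : G →* (X ≃ₜ X)) (T : Finset G) (hT : Subgroup.closure (T : Set G) = ⊤)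
    (P : Finset G) {ε : ℝ} (hε : 0 < ε) : ∃ ε' > 0, ∀ Y : G → X,
      (∀ s ∈ T, ∀ g, dist (α s (Y g)) (Y (s * g)) ≤ ε') →
      ∀ p ∈ P, ∀ g, dist (α p (Y g)) (Y (p * g)) ≤ ε := by
  classical
  induction P using Finset.induction_on with
  | empty => exact ⟨1, one_pos, by simp⟩
  | insert a P _ ih =>
    obtain ⟨e₁, he₁, h1⟩ := ih
    obtain ⟨e₂, he₂, h2⟩ := gen_one α T hT a ε hε
    refine ⟨min e₁ e₂, lt_min he₁ he₂, fun Y hY p hp g => ?_⟩
    rcases Finset.mem_insert.1 hp with rfl | hp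
    · exact h2 Y (fun s hs g => (hY s hs g).trans (min_le_right _ _)) g
    · exact h1 Y (fun s hs g => (hY s hs g).trans (min_le_left _ _)) p hp g

/-- **Shadowing of maps.** -/
theorem shadow_map [Infinite X] (hα : IsConvergenceAction α) (hperf : ∀ x : X, (𝓝[≠] x).NeBot)
    (hco : CocompactOnTriples α) (T : Finset G) (hT : Subgroup.closure (T : Set G) = ⊤) :
    ∃ r > 0, ∀ δ > 0, ∃ ε > 0, ∀ (Z : Type) [TopologicalSpace Z] (a : G →* (Z ≃ₜ Z)) (h : Z → X),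
      (∀ z, ∀ᶠ z' in 𝓝 z, dist (h z') (h z) ≤ r) →
      (∀ s ∈ T, ∀ z, dist (α s (h z)) (h (a s z)) ≤ ε) →
      ∃ H : Z → X, Continuous H ∧ (∀ g z, H (a g z) = α g (H z)) ∧
        (∀ z, dist (H z) (h z) < δ) ∧
        ∀ H' : Z → X, (∀ g z, H' (a g z) = α g (H' z)) → (∀ z, dist (H' z) (h z) ≤ 2 * r) →
          H' = H := by
  obtain ⟨r, hr, hsh⟩ := shadow hα hperf hco T hT
  refine ⟨r, hr, fun δ hδ => ?_⟩
  obtain ⟨ε₁, hε₁, P, hP⟩ := hsh (min δ r) (lt_min hδ hr)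
  obtain ⟨ε, hε, hgen⟩ := gen_all α T hT P hε₁
  refine ⟨ε, hε, fun Z _ a h hosc heq => ?_⟩
  have hma : ∀ g g' z, a (g * g') z = a g (a g' z) := fun g g' z => by rw [map_mul]; rfl
  have hY : ∀ z, ∃ x, (∀ g, dist (α g x) (h (a g z)) < min δ r) ∧
      ∀ x', (∀ g, dist (α g x') (h (a g z)) ≤ 2 * r) → x' = x := by
    intro z
    refine hP (fun g => h (a g z)) (hgen _ fun s hs g => ?_)
    rw [hma]
    exact heq s hs _
  choose H hH1 hH2 using hY
  have h1 : ∀ x : X, α 1 x = x := fun x => by rw [map_one]; rfl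
  have ha1 : ∀ z : Z, a 1 z = z := fun z => by rw [map_one]; rfl
  refine ⟨H, ?_, ?_, ?_, ?_⟩
  · rw [continuous_iff_continuousAt]
    intro z₀
    refine isCompact_univ.tendsto_nhds_of_unique_mapClusterPt
      (Eventually.of_forall fun z => mem_univ _) fun x' _ hx' => hH2 z₀ x' fun g => ?_
    have hev : ∀ᶠ z in 𝓝 z₀, dist (α g (H z)) (h (a g z₀)) ≤ 2 * r := by
      have h3 := (a g).continuous.continuousAt (x := z₀) |>.eventually (hosc (a g z₀))
      filter_upwards [h3] with z hz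
      have h4 := (hH1 z g).trans_le (min_le_right δ r)
      have h5 := dist_triangle (α g (H z)) (h (a g z)) (h (a g z₀))
      linarith
    have hcl : IsClosed {x : X | dist (α g x) (h (a g z₀)) ≤ 2 * r} :=
      isClosed_le ((α g).continuous.dist continuous_const) continuous_const
    by_contra hcon
    have hnh : {x : X | dist (α g x) (h (a g z₀)) ≤ 2 * r}ᶜ ∈ 𝓝 x' := hcl.isOpen_compl.mem_nhds hcon
    have := (hx'.frequently hnh).and_eventually hev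
    obtain ⟨z, hz1, hz2⟩ := this.exists
    exact hz1 hz2
  · intro g z
    refine (hH2 (a g z) _ fun g' => ?_).symm
    rw [← map_mul_apply, ← hma]
    have h4 := (hH1 z (g' * g)).trans_le (min_le_right δ r)
    linarith
  · intro z
    have := hH1 z 1
    rw [h1, ha1] at this
    exact this.trans_le (min_le_left _ _)
  · intro H' hH' hH'' 
    funext z
    refine hH2 z _ fun g => ?_
    rw [← hH']
    exact hH'' _

end Pool.Agent.H72.Sh
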