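import Pool.Agent.H72.Sh.S4
import Pool.Graph.R_pool_sql_team_seeded_ab47071d.TH631.RC.Fin

/-!
# Actions on hyperbolic space
-/

set_option autoImplicit false

open Filter Topology Set Metric Pool.Agent.TH289.C Pool.Agent.H72.Dj

namespace Pool.Agent.H72.Sh

section Gen

variable {G : Type} [Group G] {X : Type} [MetricSpace X] {α : G →* (X ≃ₜ X)}

theorem perfect [CompactSpace X] [Infinite X] (hmin : ∀ x, Dense (range fun g => α g x)) (x : X) :
    (𝓝[≠] x).NeBot := by
  by_contra hcon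
  rw [not_neBot] at hcon
  have hx : IsOpen ({x} : Set X) := by
    rw [isOpen_singleton_iff_nhds_eq_pure]
    have h1 : 𝓝 x = 𝓝[≠] x ⊔ pure x := (nhdsNE_sup_pure x).symm
    rw [h1, hcon, bot_sup_eq]
  have hall : ∀ y : X, IsOpen ({y} : Set X) := by
    intro y
    obtain ⟨_, hz, g, rfl⟩ := (hmin y).inter_open_nonempty _ hx ⟨x, rfl⟩
    have h2 : α g y = x := hz
    have h3 : ({y} : Set X) = α g ⁻¹' {x} := by
      ext z
      constructor
      · intro h
        have h' : z = y := h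
        rw [h']
        exact h2
      · intro h
        have h' : α g z = x := h
        exact (α g).injective (h'.trans h2.symm)
    rw [h3]
    exact hx.preimage (α g).continuous
  have : DiscreteTopology X := discreteTopology_iff_isOpen_singleton.2 hall
  have := finite_of_compact_of_discrete (X := X)
  exact not_finite X

theorem nonconst [Infinite X] (hmin : ∀ x, Dense (range fun g => α g x)) {Z : Type} [Nonempty Z]
    {a : G → Z → Z} {H : Z → X} (he : ∀ g z, H (a g z) = α g (H z)) : ∃ z z', H z ≠ H z' := by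
  by_contra hcon
  push Not at hcon
  obtain ⟨z⟩ := ‹Nonempty Z›
  have h1 : (range fun g => α g (H z)) ⊆ {H z} := by
    rintro _ ⟨g, rfl⟩
    change α g (H z) = H z
    rw [← he]
    exact hcon _ _
  have h2 := closure_mono h1
  rw [(hmin (H z)).closure_eq, closure_singleton] at h2
  have h3 : (univ : Set X).Finite := (finite_singleton (H z)).subset h2
  exact infinite_univ h3

/-- The action in the other library. -/
def toRC (α : G →* (X ≃ₜ X)) : TH631.RC.Action G X where
  map g x := α g x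
  cont g := (α g).continuous
  map_one x := by rw [map_one]; rfl
  map_mul g h x := map_mul_apply α g h x

theorem conical_all [CompactSpace X] [Infinite X] (hα : IsConvergenceAction α)
    (hmin : ∀ x, Dense (range fun g => α g x)) (hco : CocompactOnTriples α) (x : X) :
    TH631.RC.Conical (toRC α) x := by
  obtain ⟨ε, hε, hco⟩ := hco
  obtain ⟨g, a, b, hab, hg, ha⟩ := conical' hα (perfect hmin) hε hco x
  obtain ⟨e, r, hr, he⟩ := exists_wide (X := X)
  have hne : ∀ i j, i ≠ j → e i ≠ e j := fun i j hij h0 => by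
    have := he i j hij
    rw [h0, dist_self] at this
    linarith
  exact ⟨g, a, b, hg.cofinite hne, fun h0 => by
    rw [h0, dist_self] at hab
    linarith, ha, fun w hw => hg.tendsto hw⟩

end Gen

section Hyp

open TH631.RC (Sp HypAction F T tt)

variable {G : Type} [Group G] {E : Type} [NormedAddCommGroup E] [InnerProductSpace ℝ E]

/-- The action on the sphere at infinity as a homomorphism. -/
noncomputable def homF [FiniteDimensional ℝ E] (ρ : HypAction G E) : G →* (Sp E ≃ₜ Sp E) where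
  toFun g :=
    { toFun := F ρ g
      invFun := F ρ g⁻¹
      left_inv := fun x => TH631.RC.F_inv' g x
      right_inv := fun x => TH631.RC.F_inv g x
      continuous_toFun := TH631.RC.continuous_F g
      continuous_invFun := TH631.RC.continuous_F g⁻¹ }
  map_one' := by
    ext x : 1
    exact TH631.RC.F_one x
  map_mul' g h := by
    ext x : 1
    exact (TH631.RC.tt_mul g h x).2

/-- Cocompactness from contraction of the light vectors. -/
theorem cocompact_of_tt [FiniteDimensional ℝ E] {ρ : HypAction G E}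
    (hall : ∀ x : Sp E, ∃ g, tt ρ g x < 1 / 2) :
    ∃ R : ℝ, ∀ v ∈ TH631.RC.HypSpace E, ∃ g : G, (ρ.map g v).1 ≤ R := by
  classical
  have hloc : ∀ x : Sp E, ∃ O : Set (ℝ × E), IsOpen O ∧ TH631.RC.light (x : E) ∈ O ∧
      TH631.RC.Reducible ρ 1 O ∅ := by
    intro x
    obtain ⟨g, hg⟩ := hall x
    exact TH631.RC.reducible_of_tt hg 1
  choose O hO hxO hRed using hloc
  obtain ⟨t, -, ht⟩ := (isCompact_univ (X := Sp E)).elim_nhds_subcover
    (fun x => {x' : Sp E | TH631.RC.light (x' : E) ∈ O x})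
    (fun x _ => ((hO x).preimage TH631.RC.continuous_light).mem_nhds (hxO x))
  have hcover : range (fun x : Sp E => TH631.RC.light (x : E)) ⊆ ⋃ x ∈ t, O x := by
    rintro _ ⟨x', rfl⟩
    obtain ⟨x, hx, hx'⟩ := mem_iUnion₂.1 (ht (mem_univ x'))
    exact mem_iUnion₂.2 ⟨x, hx, hx'⟩
  have hopen : IsOpen (⋃ x ∈ t, O x) := isOpen_biUnion fun x _ => hO x
  obtain ⟨δ, hδ, hthick⟩ :=
    (isCompact_range (TH631.RC.continuous_light (E := E))).exists_thickening_subset_open hopen
      hcover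
  refine ⟨max 1 (1 / δ), ?_⟩
  intro v hv
  by_contra hcon
  push Not at hcon
  have hbdd : BddBelow (range fun g : G => (ρ.map g v).1) :=
    ⟨1, by rintro _ ⟨g, rfl⟩; exact TH631.RC.hyp_one_le (TH631.RC.map_mem hv g)⟩
  have hm : 1 ≤ ⨅ g : G, (ρ.map g v).1 :=
    le_ciInf fun g => TH631.RC.hyp_one_le (TH631.RC.map_mem hv g)
  obtain ⟨g, hg⟩ := exists_lt_of_ciInf_lt
    (show (⨅ g : G, (ρ.map g v).1) < 2 * ⨅ g : G, (ρ.map g v).1 by linarith)
  have hg1 := hcon g
  rw [max_lt_iff] at hg1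
  obtain ⟨x', hx'⟩ := TH631.RC.close_light (TH631.RC.map_mem hv g) hδ hg1.1 hg1.2
  have h1 : ((ρ.map g v).1)⁻¹ • ρ.map g v ∈ ⋃ x ∈ t, O x :=
    hthick (Metric.mem_thickening_iff.2 ⟨_, ⟨x', rfl⟩, hx'⟩)
  obtain ⟨x, hx, hxO'⟩ := mem_iUnion₂.1 h1
  obtain ⟨g', hg'⟩ := hRed x _ (TH631.RC.map_mem hv g) hxO' (by simp)
  rw [← ρ.map_mul] at hg'
  have h2 := ciInf_le hbdd (g' * g)
  linarith

/-- **The theorem**, general form. -/
theorem stable {X : Type} [MetricSpace X] {α : G →* (X ≃ₜ X)} [CompactSpace X] [Infinite X]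
    (hα : IsConvergenceAction α)
    (hmin : ∀ x, Dense (range fun g => α g x)) (hco : CocompactOnTriples α) (T : Finset G)
    (hT : Subgroup.closure (T : Set G) = ⊤) :
    ∃ r > 0, ∀ δ > 0, ∃ ε > 0, ∀ (E : Type) [NormedAddCommGroup E] [InnerProductSpace ℝ E]
      [FiniteDimensional ℝ E], 1 < Module.finrank ℝ E → ∀ (ρ : HypAction G E) (h : Sp E → X),
      (∀ z, ∀ᶠ z' in 𝓝 z, dist (h z') (h z) ≤ r) →
      (∀ s ∈ T, ∀ z, dist (α s (h z)) (h (F ρ s z)) ≤ ε) →
      TH631.RC.ActsProperly ρ ∧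
      (∃ R : ℝ, ∀ v ∈ TH631.RC.HypSpace E, ∃ g : G, (ρ.map g v).1 ≤ R) ∧
      ∃ H : Sp E → X, IsHomeomorph H ∧ (∀ g z, H (F ρ g z) = α g (H z)) ∧
        (∀ z, dist (H z) (h z) < δ) ∧
        ∀ H' : Sp E → X, (∀ g z, H' (F ρ g z) = α g (H' z)) → (∀ z, dist (H' z) (h z) ≤ 2 * r) →
          H' = H := by
  obtain ⟨r, hr, h1⟩ := shadow_map hα (perfect hmin) hco T hT
  refine ⟨r, hr, fun δ hδ => ?_⟩
  obtain ⟨ε, hε, h2⟩ := h1 δ hδ
  refine ⟨ε, hε, fun E _ _ _ hE ρ h hosc heq => ?_⟩
  obtain ⟨H, hHc, hHe, hHd, hHu⟩ := h2 (Sp E) (homF ρ) h hosc heq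
  have hHe' : ∀ g z, H (F ρ g z) = α g (H z) := hHe
  have hntE : Nontrivial E := Module.nontrivial_of_finrank_pos (R := ℝ) (by omega)
  have hneS : Nonempty (Sp E) := (NormedSpace.sphere_nonempty.2 zero_le_one).to_subtype
  have hd : TH631.RC.Data ρ (toRC α) H :=
    ⟨hHc, hHe', TH631.RC.inf_of hE hHc (nonconst hmin hHe')⟩
  have hαc : TH631.RC.IsConvergence (toRC α) := hα
  have hcon := conical_all hα hmin hco
  refine ⟨TH631.RC.properly (hd.finite hαc), cocompact_of_tt fun x =>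
    (hd.conical hαc (hcon (H x))).2 x rfl, H, hd.homeo hE hαc fun y => Or.inl (hcon y), hHe', hHd,
    hHu⟩

end Hyp

end Pool.Agent.H72.Sh
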