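import Pool.Agent.H72.Dj.T6

/-!
# Chains of expanding steps
-/

set_option autoImplicit false

open Filter Topology Set Metric Pool.Agent.TH289.C Pool.Agent.H72.Dj

namespace Pool.Agent.H72.Sh

variable {G : Type} [Group G] {X : Type} [MetricSpace X] {α : G →* (X ≃ₜ X)}

/-- The element `s` expands at `y` and moves the complement of the `η`-ball of `y` close to `b`. -/
def Ex (α : G →* (X ≃ₜ X)) (r η : ℝ) (y : X) (s : G) (b : X) : Prop :=
  6 * r < dist (α s y) b ∧ ∀ w, η ≤ dist w y → dist (α s w) b < r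

/-- The partial products. -/
def pr (s : ℕ → G) : ℕ → G
  | 0 => 1
  | k + 1 => s k * pr s k

theorem pr_zero (s : ℕ → G) : pr s 0 = 1 := rfl

theorem pr_succ (s : ℕ → G) (k : ℕ) : pr s (k + 1) = s k * pr s k := rfl

theorem pr_add (s : ℕ → G) (k j : ℕ) : pr s (k + j) = pr (fun i => s (k + i)) j * pr s k := by
  induction j with
  | zero => simp [pr_zero]
  | succ j ih => rw [← add_assoc, pr_succ, ih, pr_succ, mul_assoc]

/-- A chain of expanding steps. -/
structure Ch (α : G →* (X ≃ₜ X)) (r η : ℝ) (y b : ℕ → X) (s : ℕ → G) : Prop where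
  ex : ∀ k, Ex α r η (y k) (s k) (b k)
  near : ∀ k, dist (α (s k) (y k)) (y (k + 1)) ≤ r

theorem Ch.shift {r η : ℝ} {y b : ℕ → X} {s : ℕ → G} (h : Ch α r η y b s) (k : ℕ) :
    Ch α r η (fun i => y (k + i)) (fun i => b (k + i)) (fun i => s (k + i)) :=
  ⟨fun i => h.ex (k + i), fun i => h.near (k + i)⟩

theorem act_succ (s : ℕ → G) (k : ℕ) (w : X) : α (pr s (k + 1)) w = α (s k) (α (pr s k) w) := by
  rw [pr_succ, map_mul_apply]

variable {r η : ℝ} {y b : ℕ → X} {s : ℕ → G}

theorem Ch.out (h : Ch α r η y b s) (hr : 0 < r) {k : ℕ} {w : X} (hw : η ≤ dist w (y k)) :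
    dist (α (s k) w) (b k) < r ∧ 4 * r < dist (α (s k) w) (y (k + 1)) := by
  have h1 := (h.ex k).2 w hw
  refine ⟨h1, ?_⟩
  have h2 := (h.ex k).1
  have h3 := h.near k
  have h4 := dist_triangle4 (α (s k) (y k)) (y (k + 1)) (α (s k) w) (b k)
  rw [dist_comm (y (k + 1))] at h4
  linarith

theorem Ch.out_all (h : Ch α r η y b s) (hr : 0 < r) (hη : η ≤ r) {j : ℕ} {w : X}
    (hw : η ≤ dist (α (pr s j) w) (y j)) (k : ℕ) (hk : j ≤ k) :
    dist (α (pr s (k + 1)) w) (b k) < r ∧ 4 * r < dist (α (pr s (k + 1)) w) (y (k + 1)) := by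
  induction k, hk using Nat.le_induction with
  | base => rw [act_succ]; exact h.out hr hw
  | succ k hk ih => rw [act_succ]; exact h.out hr (by linarith)

theorem Ch.in_all (h : Ch α r η y b s) (hr : 0 < r) (hη : η ≤ r) {m : ℕ} {w : X}
    (hw : dist (α (pr s m) w) (y m) ≤ 2 * r) {k : ℕ} (hk : k < m) :
    dist (α (pr s k) w) (y k) < η := by
  by_contra h1
  push Not at h1
  obtain ⟨m, rfl⟩ : ∃ m', m = m' + 1 := ⟨m - 1, by omega⟩
  have := (h.out_all hr hη h1 m (by omega)).2
  linarith

/-- Three points at distances at least `2 r`. -/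
def Wide (r : ℝ) (e : Fin 3 → X) : Prop := ∀ i j, i ≠ j → 2 * r ≤ dist (e i) (e j)

theorem Wide.two {e : Fin 3 → X} (he : Wide r e) (p : X) :
    ∃ i j, i ≠ j ∧ r ≤ dist (e i) p ∧ r ≤ dist (e j) p :=
  two_outside (le_sep he) p

theorem Wide.one {e : Fin 3 → X} (he : Wide r e) (p q : X) :
    ∃ i, r ≤ dist (e i) p ∧ r ≤ dist (e i) q := by
  obtain ⟨i, j, hij, hi, hj⟩ := he.two p
  by_cases h : r ≤ dist (e i) q
  · exact ⟨i, hi, h⟩
  · refine ⟨j, hj, ?_⟩
    push Not at h
    have h1 := he i j hij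
    have h2 := dist_triangle_right (e i) (e j) q
    linarith

/-- The partial products are different. -/
theorem Ch.ne (h : Ch α r η y b s) (hr : 0 < r) (hη : η ≤ r) {e : Fin 3 → X} (he : Wide r e)
    {j k : ℕ} (hjk : j < k) : pr s j ≠ pr s k := by
  intro heq
  obtain ⟨k, rfl⟩ : ∃ k', k = k' + 1 := ⟨k - 1, by omega⟩
  obtain ⟨i, hi, hi'⟩ := he.one (y j) (b k)
  have h1 : α (pr s j) (α (pr s j)⁻¹ (e i)) = e i := map_inv_apply' α _ _
  have h2 := (h.out_all hr hη (j := j) (w := α (pr s j)⁻¹ (e i)) (by rw [h1]; linarith) k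
    (by omega)).1
  rw [← heq, h1] at h2
  linarith

/-- Finitely many elements contract two points, and not the points `w` and `w'`. -/
theorem fin_contract (hα : IsConvergenceAction α) {η₁ : ℝ} (hη₁ : 0 < η₁) (hr : 0 < r) {w w' : X}
    (hw : w ≠ w') : {g : G | ∃ v v' p : X, η₁ ≤ dist v v' ∧ dist (α g v) p ≤ 2 * r ∧
      dist (α g v') p ≤ 2 * r ∧ 4 * r ≤ dist (α g w) p ∧ 4 * r ≤ dist (α g w') p}.Finite := by
  by_contra hinf
  set A := {g : G | ∃ v v' p : X, η₁ ≤ dist v v' ∧ dist (α g v) p ≤ 2 * r ∧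
      dist (α g v') p ≤ 2 * r ∧ 4 * r ≤ dist (α g w) p ∧ 4 * r ≤ dist (α g w') p} with hA
  have hinf' : A.Infinite := hinf
  set e := hinf'.natEmbedding
  have hg : Function.Injective fun n => (e n : G) := fun m n h => e.injective (Subtype.ext h)
  obtain ⟨φ, hφ, a, b, hab⟩ := hα _ (tendsto_cofinite_of_inj hg)
  have hd : 0 < dist w w' := dist_pos.2 hw
  set c := min (η₁ / 2) (dist w w' / 2) with hc
  have hc0 : 0 < c := lt_min (by positivity) (by positivity)
  obtain ⟨n, hn⟩ := (hab (ball a (r / 2)) (ball_mem_nhds a (by positivity)) (ball b c)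
    (ball_mem_nhds b hc0)).exists
  obtain ⟨v, v', p, h1, h2, h3, h4, h5⟩ := (e (φ n)).2
  have key : ∀ p q : X, 2 * c ≤ dist p q → p ∉ ball b c ∨ q ∉ ball b c := by
    intro p q hpq
    by_contra hcon
    push Not at hcon
    have := dist_triangle_right p q b
    have h6 := mem_ball.1 hcon.1
    have h7 := mem_ball.1 hcon.2
    linarith
  have hv : dist a p < 2 * r + r / 2 := by
    have e1 : 2 * c ≤ dist v v' := by
      have := min_le_left (η₁ / 2) (dist w w' / 2)
      linarith
    rcases key v v' e1 with h | h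
    · have := mem_ball.1 (hn v h)
      have h6 := dist_triangle_left a p (α (e (φ n)) v)
      linarith
    · have := mem_ball.1 (hn v' h)
      have h6 := dist_triangle_left a p (α (e (φ n)) v')
      linarith
  have hw' : 4 * r - r / 2 < dist a p := by
    have e1 : 2 * c ≤ dist w w' := by
      have := min_le_right (η₁ / 2) (dist w w' / 2)
      linarith
    rcases key w w' e1 with h | h
    · have := mem_ball.1 (hn w h)
      have h6 := dist_triangle (α (e (φ n)) w) a p
      linarith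
    · have := mem_ball.1 (hn w' h)
      have h6 := dist_triangle (α (e (φ n)) w') a p
      linarith
  linarith

/-- **Uniform contraction** along chains. -/
theorem contract (hα : IsConvergenceAction α) (hr : 0 < r) (hη : η ≤ r) {e : Fin 3 → X}
    (he : Wide r e) {η₁ : ℝ} (hη₁ : 0 < η₁) : ∃ m : ℕ, ∀ (y b : ℕ → X) (s : ℕ → G),
      Ch α r η y b s → ∀ v v' : X, dist (α (pr s m) v) (y m) ≤ 2 * r →
        dist (α (pr s m) v') (y m) ≤ 2 * r → dist v v' < η₁ := by
  classical
  set A : Fin 3 → Fin 3 → Set G := fun i j => {g : G | i ≠ j ∧ ∃ v v' p : X, η₁ ≤ dist v v' ∧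
    dist (α g v) p ≤ 2 * r ∧ dist (α g v') p ≤ 2 * r ∧ 4 * r ≤ dist (α g (e i)) p ∧
      4 * r ≤ dist (α g (e j)) p} with hA
  have hAf : ∀ i j, (A i j).Finite := by
    intro i j
    by_cases hij : i = j
    · have : A i j = ∅ := by
        ext g
        simp [hA, hij]
      rw [this]
      exact finite_empty
    · have hne : e i ≠ e j := by
        intro h0
        have := he i j hij
        rw [h0, dist_self] at this
        linarith
      exact (fin_contract hα hη₁ hr hne).subset fun g hg => hg.2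
  have hU : (⋃ i, ⋃ j, A i j).Finite := finite_iUnion fun i => finite_iUnion fun j => hAf i j
  set U := hU.toFinset with hUdef
  refine ⟨U.card + 1, fun y b s h v v' hv hv' => ?_⟩
  by_contra hcon
  push Not at hcon
  obtain ⟨i, j, hij, hi, hj⟩ := he.two (y 0)
  have hin : ∀ w, dist (α (pr s (U.card + 1)) w) (y (U.card + 1)) ≤ 2 * r → ∀ k ≤ U.card + 1,
      dist (α (pr s k) w) (y k) ≤ 2 * r := by
    intro w hw k hk
    rcases hk.lt_or_eq with h1 | h1
    · have := h.in_all hr hη hw h1
      linarith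
    · rw [h1]; exact hw
  have hout : ∀ i, r ≤ dist (e i) (y 0) → ∀ k, 4 * r ≤ dist (α (pr s (k + 1)) (e i)) (y (k + 1)) := by
    intro i hi k
    have h1 : α (pr s 0) (e i) = e i := by rw [pr_zero, map_one]; rfl
    exact (h.out_all hr hη (j := 0) (w := e i) (by rw [h1]; linarith) k (Nat.zero_le k)).2.le
  have hmem : ∀ k ∈ Finset.range (U.card + 1), pr s (k + 1) ∈ U := by
    intro k hk
    have hk' : k + 1 ≤ U.card + 1 := by simpa using Finset.mem_range.1 hk
    rw [hUdef, hU.mem_toFinset]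
    refine mem_iUnion.2 ⟨i, mem_iUnion.2 ⟨j, hij, v, v', y (k + 1), hcon, hin v hv _ hk',
      hin v' hv' _ hk', hout i hi k, hout j hj k⟩⟩
  have hinj : Set.InjOn (fun k => pr s (k + 1)) (Finset.range (U.card + 1)) := by
    intro k _ l _ hkl
    by_contra hne
    rcases lt_or_gt_of_ne hne with h1 | h1
    · exact h.ne hr hη he (by omega : k + 1 < l + 1) hkl
    · exact h.ne hr hη he (by omega : l + 1 < k + 1) hkl.symm
  have := Finset.card_le_card_of_injOn _ hmem hinj
  rw [Finset.card_range] at this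
  omega

/-- The tracing point. -/
theorem Ch.exists [CompactSpace X] (h : Ch α r η y b s) (hr : 0 < r) (hη : η ≤ r) :
    ∃ x, ∀ k, dist (α (pr s k) x) (y k) ≤ 2 * r := by
  have hne : (⋂ k, {x | dist (α (pr s k) x) (y k) ≤ 2 * r}).Nonempty := by
    refine IsCompact.nonempty_iInter_of_sequence_nonempty_isCompact_isClosed _ ?_ ?_ ?_ ?_
    · intro k x hx
      have := h.in_all hr hη (m := k + 1) hx (Nat.lt_succ_self k)
      change dist _ _ ≤ _
      linarith
    · intro k
      refine ⟨α (pr s k)⁻¹ (y k), ?_⟩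
      change dist _ _ ≤ _
      rw [map_inv_apply', dist_self]
      positivity
    · exact (isClosed_le (((α (pr s 0)).continuous).dist continuous_const)
        continuous_const).isCompact
    · intro k
      exact isClosed_le (((α (pr s k)).continuous).dist continuous_const) continuous_const
  obtain ⟨x, hx⟩ := hne
  exact ⟨x, fun k => mem_iInter.1 hx k⟩

/-- The tracing point is unique. -/
theorem Ch.unique (hα : IsConvergenceAction α) (h : Ch α r η y b s) (hr : 0 < r) (hη : η ≤ r)
    {e : Fin 3 → X} (he : Wide r e) {x x' : X} (hx : ∀ k, dist (α (pr s k) x) (y k) ≤ 2 * r)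
    (hx' : ∀ k, dist (α (pr s k) x') (y k) ≤ 2 * r) : x = x' := by
  by_contra hne
  obtain ⟨m, hm⟩ := contract (η := η) hα hr hη he (dist_pos.2 hne)
  exact lt_irrefl _ (hm y b s h x x' (hx m) (hx' m))

end Pool.Agent.H72.Sh
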