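import Pool.Agent.H72.Sh.S1

/-!
# Existence of expanding elements
-/

set_option autoImplicit false

open Filter Topology Set Metric Pool.Agent.TH289.C Pool.Agent.H72.Dj

namespace Pool.Agent.H72.Sh

variable {G : Type} [Group G] {X : Type} [MetricSpace X] [CompactSpace X] {α : G →* (X ≃ₜ X)}

theorem near_point (hperf : ∀ x : X, (𝓝[≠] x).NeBot) (x : X) {c : ℝ} (hc : 0 < c) :
    ∃ y : X, y ≠ x ∧ dist y x < c := by
  have h1 : ball x c ∈ 𝓝[≠] x := mem_nhdsWithin_of_mem_nhds (ball_mem_nhds x hc)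
  have h2 : {x}ᶜ ∈ 𝓝[≠] x := self_mem_nhdsWithin
  obtain ⟨y, hy1, hy2⟩ := (hperf x).nonempty_of_mem (inter_mem h1 h2)
  exact ⟨y, hy2, hy1⟩

/-- Every point is conical, with constants that do not depend on the point. -/
theorem conical' (hα : IsConvergenceAction α) (hperf : ∀ x : X, (𝓝[≠] x).NeBot) {ε : ℝ}
    (hε : 0 < ε) (hco : ∀ x y z : X, x ≠ y → y ≠ z → x ≠ z → ∃ g : G,
      ε ≤ dist (α g x) (α g y) ∧ ε ≤ dist (α g y) (α g z) ∧ ε ≤ dist (α g x) (α g z)) (x : X) :
    ∃ (g : ℕ → G) (a b : X), ε ≤ dist a b ∧ Conv α g b x ∧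
      Tendsto (fun n => α (g n) x) atTop (𝓝 a) := by
  obtain ⟨w, hwx, -⟩ := near_point hperf x one_pos
  have hy : ∀ n : ℕ, ∃ y : X, y ≠ x ∧ y ≠ w ∧ dist y x < 1 / ((n : ℝ) + 1) := by
    intro n
    obtain ⟨y, hy1, hy2⟩ := near_point hperf x (c := min (1 / ((n : ℝ) + 1)) (dist w x))
      (lt_min (by positivity) (dist_pos.2 hwx))
    refine ⟨y, hy1, fun h => ?_, hy2.trans_le (min_le_left _ _)⟩
    rw [h] at hy2
    exact lt_irrefl _ (hy2.trans_le (min_le_right _ _))
  choose y hyx hyw hyd using hy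
  choose g hg1 hg2 hg3 using fun n => hco x (y n) w (hyx n).symm (hyw n) hwx.symm
  obtain ⟨φ, hφ, b, hb⟩ := attract_of_near hα hε (ξ := x) (fun n => (g n)⁻¹)
    (fun n => ![x, y n, w]) (fun n => ⟨0, 1, by decide, by
      change dist x x < _
      rw [dist_self]; positivity, hyd n⟩) (fun n => by
      rw [inv_inv]
      exact le_min (hg1 n) (le_min (hg2 n) (hg3 n)))
  have hb' : Conv α (fun n => (g (φ n))⁻¹) x b := hb
  have hb'' : Conv α (fun n => g (φ n)) b x := by
    refine hb'.inv.congr fun n => ?_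
    rw [inv_inv]
  obtain ⟨a, -, ψ, hψ, ha⟩ := (isCompact_univ (X := X)).tendsto_subseq
    (x := fun n => α (g (φ n)) x) (fun n => mem_univ _)
  refine ⟨fun n => g (φ (ψ n)), a, b, ?_, hb''.comp hψ.tendsto_atTop, ha⟩
  have h1 : Tendsto (fun n => α (g (φ (ψ n))) w) atTop (𝓝 b) :=
    (hb''.tendsto hwx).comp hψ.tendsto_atTop
  have h2 : Tendsto (fun n => dist (α (g (φ (ψ n))) x) (α (g (φ (ψ n))) w)) atTop
      (𝓝 (dist a b)) := ha.dist h1
  exact ge_of_tendsto h2 (Eventually.of_forall fun n => hg3 _)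

/-- A finite set of elements that expand at all points. -/
theorem exists_ex (hα : IsConvergenceAction α) (hperf : ∀ x : X, (𝓝[≠] x).NeBot) {ε : ℝ}
    (hε : 0 < ε) (hco : ∀ x y z : X, x ≠ y → y ≠ z → x ≠ z → ∃ g : G,
      ε ≤ dist (α g x) (α g y) ∧ ε ≤ dist (α g y) (α g z) ∧ ε ≤ dist (α g x) (α g z))
    {r η : ℝ} (hr : 0 < r) (hrε : 6 * r < ε) (hη : 0 < η) :
    ∃ S : Finset G, ∀ y : X, ∃ s ∈ S, ∃ b, Ex α r η y s b := by
  classical
  have key : ∀ x : X, ∃ (g : G) (b : X), 6 * r < dist (α g x) b ∧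
      ∀ w, η / 2 ≤ dist w x → dist (α g w) b < r := by
    intro x
    obtain ⟨g, a, b, hab, hg, ha⟩ := conical' hα hperf hε hco x
    have h1 : Tendsto (fun n => dist (α (g n) x) b) atTop (𝓝 (dist a b)) :=
      ha.dist tendsto_const_nhds
    have h2 := h1.eventually_const_lt (hrε.trans_le hab)
    obtain ⟨n, hn1, hn2⟩ := (h2.and (hg (ball b r) (ball_mem_nhds b hr) (ball x (η / 2))
      (ball_mem_nhds x (by positivity)))).exists
    refine ⟨g n, b, hn1, fun w hw => ?_⟩
    exact hn2 w fun h => absurd (mem_ball.1 h) (not_lt.2 hw)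
  choose g b h1 h2 using key
  set V : X → Set X := fun x => ball x (η / 2) ∩ {y | 6 * r < dist (α (g x) y) (b x)} with hV
  have hVn : ∀ x ∈ (univ : Set X), V x ∈ 𝓝 x := by
    intro x _
    refine inter_mem (ball_mem_nhds x (by positivity)) ?_
    exact (isOpen_lt continuous_const
      (((α (g x)).continuous).dist continuous_const)).mem_nhds (h1 x)
  obtain ⟨t, -, ht⟩ := isCompact_univ.elim_nhds_subcover V hVn
  refine ⟨t.image g, fun y => ?_⟩
  obtain ⟨x, hx, hy1, hy2⟩ : ∃ x ∈ t, y ∈ V x := by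
    have := ht (mem_univ y)
    simpa using this
  refine ⟨g x, Finset.mem_image_of_mem _ hx, b x, hy2, fun w hw => h2 x w ?_⟩
  have h3 := dist_triangle_right w y x
  have h4 := mem_ball.1 hy1
  have h5 := dist_triangle w x y
  rw [dist_comm x y] at h5
  linarith

/-- Common modulus of continuity of finitely many elements. -/
theorem exists_mod (α : G →* (X ≃ₜ X)) (T : Finset G) {c : ℝ} (hc : 0 < c) :
    ∃ d > 0, ∀ s ∈ T, ∀ p q : X, dist p q ≤ d → dist (α s p) (α s q) < c := by
  classical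
  induction T using Finset.induction_on with
  | empty => exact ⟨1, one_pos, by simp⟩
  | insert a T _ ih =>
    obtain ⟨d, hd, h⟩ := ih
    obtain ⟨d', hd', h'⟩ := Metric.uniformContinuous_iff.1
      (CompactSpace.uniformContinuous_of_continuous (α a).continuous) c hc
    refine ⟨min d (d' / 2), lt_min hd (by positivity), fun s hs p q hpq => ?_⟩
    rcases Finset.mem_insert.1 hs with rfl | hs
    · exact h' ((hpq.trans (min_le_right _ _)).trans_lt (by linarith))
    · exact h s hs p q (hpq.trans (min_le_left _ _))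

/-- Finitely many elements do not contract distances too much. -/
theorem exists_low (α : G →* (X ≃ₜ X)) (T : Finset G) {c : ℝ} (hc : 0 < c) :
    ∃ d > 0, ∀ s ∈ T, ∀ p q : X, c ≤ dist p q → d ≤ dist (α s p) (α s q) := by
  classical
  obtain ⟨d, hd, h⟩ := exists_mod α (T.image fun g => g⁻¹) hc
  refine ⟨d, hd, fun s hs p q hpq => ?_⟩
  by_contra hcon
  push Not at hcon
  have := h s⁻¹ (Finset.mem_image_of_mem _ hs) _ _ hcon.le
  rw [map_inv_apply, map_inv_apply] at this
  linarith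

/-- Three wide points. -/
theorem exists_wide [Infinite X] : ∃ (e : Fin 3 → X) (r : ℝ), 0 < r ∧ Wide r e := by
  set e : Fin 3 → X := fun i => Infinite.natEmbedding X i with he
  have hne : ∀ i j, i ≠ j → e i ≠ e j := fun i j hij h0 => hij (by
    have := (Infinite.natEmbedding X).injective h0
    exact Fin.ext this)
  have h0 : 0 < sep e := lt_sep fun i j hij => dist_pos.2 (hne i j hij)
  refine ⟨e, sep e / 2, by positivity, fun i j hij => ?_⟩
  have := sep_le e hij
  linarith

end Pool.Agent.H72.Sh
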