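import Pool.Agent.H72.Sh.S2

/-!
# Tracing points from different base points agree
-/

set_option autoImplicit false

open Filter Topology Set Metric Pool.Agent.TH289.C Pool.Agent.H72.Dj

namespace Pool.Agent.H72.Sh

variable {G : Type} [Group G] {X : Type} [MetricSpace X] {α : G →* (X ≃ₜ X)}
variable {r η η₁ : ℝ} {y b : ℕ → X} {s : ℕ → G}

/-- A time at which the triple is separated. -/
theorem sep_time (hα : IsConvergenceAction α) (h : Ch α r η y b s) (hr : 0 < r) (hη0 : 0 < η)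
    (hη : η ≤ r) {e : Fin 3 → X} (he : Wide r e) {x x' w : X} {ρ₁ κ₁ : ℝ} (hη₁ : η₁ ≤ η / 2)
    (hx : ∀ k, dist (α (pr s k) x) (y k) < η₁) (hne : x ≠ x') (hx0 : dist x' (y 0) < η)
    (hw0 : η ≤ dist w (y 0)) (hρ : ρ₁ ≤ dist x' w) (hρr : ρ₁ ≤ r)
    (hκ : ∀ k, ∀ p q : X, ρ₁ ≤ dist p q → κ₁ ≤ dist (α (s k) p) (α (s k) q)) :
    ∃ k, η ≤ dist (α (pr s k) x') (y k) ∧ η / 2 ≤ dist (α (pr s k) x) (α (pr s k) x') ∧
      r ≤ dist (α (pr s k) x) (α (pr s k) w) ∧
        κ₁ ≤ dist (α (pr s k) x') (α (pr s k) w) := by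
  classical
  have hex : ∃ k, η ≤ dist (α (pr s k) x') (y k) := by
    by_contra hcon
    push Not at hcon
    refine hne (h.unique hα hr hη he (fun k => ?_) fun k => ?_)
    · have := hx k; linarith
    · have := hcon k; linarith
  set k := Nat.find hex with hk
  have h1 : η ≤ dist (α (pr s k) x') (y k) := Nat.find_spec hex
  have h0 : ∀ w : X, α (pr s 0) w = w := fun w => by rw [pr_zero, map_one]; rfl
  have hk0 : k ≠ 0 := by
    intro h2
    rw [h2, h0] at h1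
    linarith
  obtain ⟨j, hj⟩ : ∃ j, k = j + 1 := ⟨k - 1, by omega⟩
  have h2 : dist (α (pr s j) x') (y j) < η := by
    have := Nat.find_min hex (m := j) (by omega)
    exact not_le.1 this
  have h3 := h.out_all hr hη (j := 0) (w := w) (by rw [h0]; exact hw0)
  have h4 : 4 * r < dist (α (pr s k) w) (y k) := by
    rw [hj]; exact (h3 j (Nat.zero_le j)).2
  refine ⟨k, h1, ?_, ?_, ?_⟩
  · have h5 := dist_triangle_left (α (pr s k) x') (y k) (α (pr s k) x)
    have h6 := hx k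
    linarith
  · have h5 := dist_triangle_left (α (pr s k) w) (y k) (α (pr s k) x)
    have h6 := hx k
    linarith
  · rw [hj, act_succ, act_succ]
    refine hκ j _ _ ?_
    rcases Nat.eq_zero_or_pos j with h5 | h5
    · rw [h5, h0, h0]; exact hρ
    · obtain ⟨i, hi⟩ : ∃ i, j = i + 1 := ⟨j - 1, by omega⟩
      have h6 : 4 * r < dist (α (pr s j) w) (y j) := by
        rw [hi]; exact (h3 i (Nat.zero_le i)).2
      have h7 := dist_triangle_left (α (pr s j) w) (y j) (α (pr s j) x')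
      linarith

/-- The tracing points of neighbouring base points agree. -/
theorem consist (hα : IsConvergenceAction α) (hr : 0 < r) (hη0 : 0 < η) (hη : η ≤ r)
    {e : Fin 3 → X} (he : Wide r e) {Y : G → X} {g₀ t : G} {S V : Set G} {x x'' : X}
    {ρ₁ κ₁ κ ε : ℝ} {b b' : ℕ → X} {s s' : ℕ → G} (hs : ∀ k, s k ∈ S) (hs' : ∀ k, s' k ∈ S)
    (h : Ch α r η (fun k => Y (pr s k * g₀)) b s)
    (h' : Ch α r η (fun k => Y (pr s' k * (t * g₀))) b' s')
    (hx : ∀ k, dist (α (pr s k) x) (Y (pr s k * g₀)) < η₁)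
    (hx'' : ∀ k, dist (α (pr s' k) x'') (Y (pr s' k * (t * g₀))) < η₁)
    (hT1 : ∀ p q : X, dist p q ≤ 2 * η → dist (α t⁻¹ p) (α t⁻¹ q) < r)
    (hT2 : ∀ p q : X, dist p q ≤ 2 * η₁ → dist (α t⁻¹ p) (α t⁻¹ q) < η / 2)
    (hT3 : ∀ p q : X, dist p q ≤ 2 * η₁ → dist (α t p) (α t q) < η / 2)
    (hT4 : ∀ p q : X, r / 2 ≤ dist p q → ρ₁ ≤ dist (α t p) (α t q))
    (hρ : ρ₁ ≤ r / 2)
    (hS : ∀ s ∈ S, ∀ p q : X, ρ₁ ≤ dist p q → κ₁ ≤ dist (α s p) (α s q))
    (hκ1 : κ ≤ η / 2) (hκ2 : κ ≤ r) (hκ3 : κ ≤ κ₁)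
    (hV : ∀ v, (∃ t : Fin 3 → X, κ ≤ sep t ∧ κ ≤ sep (act α v t)) → v ∈ V)
    (hV2 : ∀ v ∈ V, ∀ p q : X, dist p q ≤ 2 * η₁ → dist (α v p) (α v q) < η / 2)
    (hYV : ∀ v ∈ V, ∀ g, dist (α v (Y g)) (Y (v * g)) ≤ ε)
    (hYt : dist (α t (Y g₀)) (Y (t * g₀)) ≤ ε) (hε : ε ≤ η₁) (hη₁0 : 0 < η₁)
    (hη₁ : η₁ ≤ η / 2) : x'' = α t x := by
  by_contra hcon
  set x' := α t⁻¹ x'' with hx'def
  have htx' : α t x' = x'' := map_inv_apply' α t x''
  have hne : x ≠ x' := by
    intro h0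
    apply hcon
    rw [h0, htx']
  have h0 : ∀ (s : ℕ → G) (w : X), α (pr s 0) w = w := fun s w => by rw [pr_zero, map_one]; rfl
  have hx0 : dist x (Y g₀) < η₁ := by
    have := hx 0
    rwa [h0, pr_zero, one_mul] at this
  have hx0'' : dist x'' (Y (t * g₀)) < η₁ := by
    have := hx'' 0
    rwa [h0, pr_zero, one_mul] at this
  -- the far point
  obtain ⟨i, -, -, hi, -⟩ := he.two (Y g₀)
  set w := e i with hw
  have hx'0 : dist x' (Y g₀) < η / 2 := by
    have h1 : dist x'' (α t (Y g₀)) ≤ 2 * η₁ := by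
      have := dist_triangle_right x'' (α t (Y g₀)) (Y (t * g₀))
      linarith
    have := hT2 _ _ h1
    rwa [map_inv_apply] at this
  have hx'w : r / 2 ≤ dist x' w := by
    have := dist_triangle_left w (Y g₀) x'
    linarith
  have hxw : r / 2 ≤ dist x w := by
    have := dist_triangle_left w (Y g₀) x
    linarith
  have hw2 : η ≤ dist (α t w) (Y (t * g₀)) := by
    by_contra h1
    push Not at h1
    have h2 : dist (α t w) (α t (Y g₀)) ≤ 2 * η := by
      have := dist_triangle_right (α t w) (α t (Y g₀)) (Y (t * g₀))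
      linarith
    have h3 := hT1 _ _ h2
    rw [map_inv_apply, map_inv_apply] at h3
    linarith
  have htx0 : dist (α t x) (Y (t * g₀)) < η := by
    have h1 := hT3 x (Y g₀) (by linarith)
    have h2 := dist_triangle (α t x) (α t (Y g₀)) (Y (t * g₀))
    linarith
  obtain ⟨k, hk1, hk2, hk3, hk4⟩ := sep_time (x := x) (x' := x') (w := w) (ρ₁ := ρ₁) (κ₁ := κ₁)
    hα h hr hη0 hη he hη₁ hx hne (by
      change dist x' (Y (pr s 0 * g₀)) < η
      rw [pr_zero, one_mul]; linarith) (by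
      change η ≤ dist w (Y (pr s 0 * g₀))
      rw [pr_zero, one_mul]; linarith) (by linarith) (by linarith)
    (fun k p q => hS _ (hs k) p q)
  obtain ⟨l, -, hl2, hl3, hl4⟩ := sep_time (x := x'') (x' := α t x) (w := α t w) (ρ₁ := ρ₁)
    (κ₁ := κ₁) hα h' hr hη0 hη he hη₁ hx'' hcon (by
      change dist (α t x) (Y (pr s' 0 * (t * g₀))) < η
      rw [pr_zero, one_mul]; exact htx0) (by
      change η ≤ dist (α t w) (Y (pr s' 0 * (t * g₀)))
      rw [pr_zero, one_mul]; exact hw2) (hT4 _ _ hxw) (by linarith)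
    (fun k p q => hS _ (hs' k) p q)
  set v := pr s k * (pr s' l * t)⁻¹ with hv
  have hvp : ∀ p, α v (α (pr s' l) (α t p)) = α (pr s k) p := by
    intro p
    rw [← map_mul_apply, ← map_mul_apply]
    congr 2
    rw [hv]; group
  have hvV : v ∈ V := by
    refine hV v ⟨![α (pr s' l) (α t x), α (pr s' l) (α t x'), α (pr s' l) (α t w)], ?_, ?_⟩
    · rw [htx']
      refine le_min ?_ (le_min ?_ ?_)
      · change κ ≤ dist (α (pr s' l) (α t x)) (α (pr s' l) x'')
        rw [dist_comm]; linarith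
      · change κ ≤ dist (α (pr s' l) x'') (α (pr s' l) (α t w))
        linarith
      · change κ ≤ dist (α (pr s' l) (α t x)) (α (pr s' l) (α t w))
        linarith
    · refine le_min ?_ (le_min ?_ ?_)
      · change κ ≤ dist (α v (α (pr s' l) (α t x))) (α v (α (pr s' l) (α t x')))
        rw [hvp, hvp]; linarith
      · change κ ≤ dist (α v (α (pr s' l) (α t x'))) (α v (α (pr s' l) (α t w)))
        rw [hvp, hvp]; linarith
      · change κ ≤ dist (α v (α (pr s' l) (α t x))) (α v (α (pr s' l) (α t w)))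
        rw [hvp, hvp]; linarith
  have h1 := hYV v hvV (pr s' l * (t * g₀))
  have h2 : v * (pr s' l * (t * g₀)) = pr s k * g₀ := by rw [hv]; group
  rw [h2] at h1
  have h3 := hV2 v hvV (α (pr s' l) x'') (Y (pr s' l * (t * g₀))) (by
    have := hx'' l
    linarith)
  rw [← htx', hvp] at h3
  have h4 := dist_triangle (α (pr s k) x') (α v (Y (pr s' l * (t * g₀)))) (Y (pr s k * g₀))
  linarith

/-- Chains from the pseudo-orbit. -/
theorem exists_chain {S : Set G} (hS : ∀ y : X, ∃ s ∈ S, ∃ b, Ex α r η y s b) {Y : G → X}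
    (hY : ∀ s ∈ S, ∀ g, dist (α s (Y g)) (Y (s * g)) ≤ r) (g₀ : G) :
    ∃ (b : ℕ → X) (s : ℕ → G), (∀ k, s k ∈ S) ∧ Ch α r η (fun k => Y (pr s k * g₀)) b s := by
  choose c hc b hb using hS
  let gs : ℕ → G := fun k => Nat.rec g₀ (fun _ g => c (Y g) * g) k
  have hgs0 : gs 0 = g₀ := rfl
  have hgs : ∀ k, gs (k + 1) = c (Y (gs k)) * gs k := fun k => rfl
  have hpr : ∀ k, pr (fun k => c (Y (gs k))) k * g₀ = gs k := by
    intro k
    induction k with
    | zero => rw [pr_zero, one_mul, hgs0]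
    | succ k ih => rw [pr_succ, mul_assoc, ih, hgs]
  refine ⟨fun k => b (Y (gs k)), fun k => c (Y (gs k)), fun k => hc _, ⟨fun k => ?_, fun k => ?_⟩⟩
  · simp only [hpr]
    exact hb (Y (gs k))
  · simp only [hpr, hgs]
    exact hY _ (hc _) _

/-- The tracing point is close to the pseudo-orbit. -/
theorem acc {Y : G → X} {g₀ : G} {S U : Set G} {b : ℕ → X} {s : ℕ → G} {x : X} {m : ℕ}
    (h : Ch α r η (fun k => Y (pr s k * g₀)) b s) (hs : ∀ k, s k ∈ S)
    (hx : ∀ k, dist (α (pr s k) x) (Y (pr s k * g₀)) ≤ 2 * r)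
    (hm : ∀ (y b : ℕ → X) (s : ℕ → G), Ch α r η y b s → ∀ v v' : X,
      dist (α (pr s m) v) (y m) ≤ 2 * r → dist (α (pr s m) v') (y m) ≤ 2 * r → dist v v' < η₁)
    (hU : ∀ s : ℕ → G, (∀ k, s k ∈ S) → pr s m ∈ U)
    (hY : ∀ u ∈ U, ∀ g, dist (α u (Y g)) (Y (u * g)) ≤ 2 * r) (k : ℕ) :
    dist (α (pr s k) x) (Y (pr s k * g₀)) < η₁ := by
  refine hm _ _ _ (h.shift k) _ _ ?_ ?_
  · rw [← map_mul_apply, ← pr_add]
    exact hx (k + m)
  · rw [pr_add, mul_assoc]
    exact hY _ (hU _ fun i => hs (k + i)) _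

/-- The products of `m` elements of a finite set. -/
theorem fin_pr {S : Set G} (hS : S.Finite) (m : ℕ) :
    {g : G | ∃ s : ℕ → G, (∀ k, s k ∈ S) ∧ pr s m = g}.Finite := by
  induction m with
  | zero =>
    refine (finite_singleton (1 : G)).subset ?_
    rintro g ⟨s, -, rfl⟩
    rfl
  | succ m ih =>
    refine ((hS.prod ih).image fun p => p.1 * p.2).subset ?_
    rintro g ⟨s, hs, rfl⟩
    exact ⟨(s m, pr s m), ⟨hs m, s, hs, rfl⟩, rfl⟩

end Pool.Agent.H72.Sh
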